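import Pool.Agent.LeoG.UpStmts
import Pool.Agent.Helper24_LeoK.Cel

/-!
Squad LEOG, module CEL: the number of forms in one dyadic cell (port of the module CEL of LEOK by
helper24).
-/

set_option autoImplicit false

open NumberField Module

namespace Pool.Agent.LeoG.H27

open Pool.Agent.LeoK
open Pool.Agent.LeoK.H24 (fib le_of_sq rpow_three_half)

theorem rpow_quarter {z : ℝ} (hz : 0 ≤ z) : (z ^ 4) ^ (1 / 4 : ℝ) = z := by
  rw [← Real.rpow_natCast z 4, ← Real.rpow_mul hz]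
  norm_num

/-- The inequalities at one place. -/
theorem place {a h m z cF X Y : ℝ} (hcF : 1 ≤ cF) (hX : 0 < X) (hY : 0 < Y)
    (hm : 0 < m) (hm2 : m ≤ 2 * cF * X ^ 4) (hz : 0 ≤ z) (hz2 : z ≤ 2 * cF * Y ^ 2)
    (ha : |a| ≤ 2 * (z ^ (3 / 2 : ℝ) * m ^ (1 / 4 : ℝ))) (hh : |h| ≤ 2 * (z * Real.sqrt m)) :
    |a| ≤ 32 * cF ^ 4 * (Y ^ 3 * X) ∧ |h| ≤ 8 * cF ^ 2 * (Y ^ 2 * X ^ 2) := by
  have hc0 : 0 < cF := lt_of_lt_of_le one_pos hcF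
  have h2c : 1 ≤ 2 * cF := by linarith
  have hm4 : m ≤ (2 * cF * X) ^ 4 := by
    refine hm2.trans ?_
    have h1 : 2 * cF ≤ (2 * cF) ^ 4 := le_self_pow₀ h2c (by norm_num)
    have h2 : (2 * cF * X) ^ 4 = (2 * cF) ^ 4 * X ^ 4 := by ring
    rw [h2]
    gcongr
  have hz3 : z ≤ (2 * cF * Y) ^ 2 := by
    refine hz2.trans ?_
    have h1 : 2 * cF ≤ (2 * cF) ^ 2 := le_self_pow₀ h2c (by norm_num)
    have h2 : (2 * cF * Y) ^ 2 = (2 * cF) ^ 2 * Y ^ 2 := by ring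
    rw [h2]
    gcongr
  have h1 : m ^ (1 / 4 : ℝ) ≤ 2 * cF * X := by
    calc m ^ (1 / 4 : ℝ) ≤ ((2 * cF * X) ^ 4) ^ (1 / 4 : ℝ) :=
          Real.rpow_le_rpow hm.le hm4 (by norm_num)
      _ = 2 * cF * X := rpow_quarter (by positivity)
  have h2 : z ^ (3 / 2 : ℝ) ≤ (2 * cF * Y) ^ 3 := by
    calc z ^ (3 / 2 : ℝ) ≤ ((2 * cF * Y) ^ 2) ^ (3 / 2 : ℝ) :=
          Real.rpow_le_rpow hz hz3 (by norm_num)
      _ = (2 * cF * Y) ^ 3 := rpow_three_half (by positivity)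
  have h3 : Real.sqrt m ≤ 2 * cF * X ^ 2 := by
    refine Real.sqrt_le_iff.2 ⟨by positivity, ?_⟩
    refine hm2.trans ?_
    have h4 : 2 * cF ≤ (2 * cF) ^ 2 := le_self_pow₀ h2c (by norm_num)
    have h5 : (2 * cF * X ^ 2) ^ 2 = (2 * cF) ^ 2 * X ^ 4 := by ring
    rw [h5]
    gcongr
  constructor
  · have h0 : 0 ≤ m ^ (1 / 4 : ℝ) := Real.rpow_nonneg hm.le _
    calc |a| ≤ 2 * (z ^ (3 / 2 : ℝ) * m ^ (1 / 4 : ℝ)) := ha
      _ ≤ 2 * ((2 * cF * Y) ^ 3 * (2 * cF * X)) := by gcongr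
      _ = 32 * cF ^ 4 * (Y ^ 3 * X) := by ring
  · calc |h| ≤ 2 * (z * Real.sqrt m) := hh
      _ ≤ 2 * ((2 * cF * Y ^ 2) * (2 * cF * X ^ 2)) := by gcongr
      _ = 8 * cF ^ 2 * (Y ^ 2 * X ^ 2) := by ring

section

variable {k : Type} [Field k] [NumberField k]

theorem map_mm (s : Sg k) (v : Q4 (𝓞 k)) : s ((mm v : 𝓞 k) : k) = mm (rl s v) := by
  have h4 : s ((algebraMap (𝓞 k) k) 4) = 4 := by rw [map_ofNat, map_ofNat]
  have h27 : s ((algebraMap (𝓞 k) k) 27) = 27 := by rw [map_ofNat, map_ofNat]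
  have h18 : s ((algebraMap (𝓞 k) k) 18) = 18 := by rw [map_ofNat, map_ofNat]
  simp only [mm, dsc, rl, map_neg, map_add, map_sub, map_mul, map_pow, h4, h27, h18]

theorem hg_one (s : Sg k) (v : Q4 (𝓞 k)) : hg v 1 0 s = hz (rl s v) 1 0 := by
  simp [hg]

/-- The bounds at all places for an element of the cell. -/
theorem cell_bounds (hrea : ReaStmt) {cF R X Y : ℝ} (hcF : 1 ≤ cF) (hX : 0 < X) (hY : 0 < Y)
    {v : Q4 (𝓞 k)} (hv : v ∈ gcell (k := k) cF R (X ^ 4) (Y ^ 2)) (s : Sg k) :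
    |s (v 0 : k)| ≤ 32 * cF ^ 4 * (Y ^ 3 * X) ∧
    |s (v 1 : k) ^ 2 - 3 * s (v 0 : k) * s (v 2 : k)| ≤ 8 * cF ^ 2 * (Y ^ 2 * X ^ 2) := by
  have hc0 : 0 < cF := lt_of_lt_of_le one_pos hcF
  obtain ⟨-, -, h3, h4, h5⟩ := hv
  have h3 := h3 s
  have h4 := h4 s
  have h5 := h5 s
  rw [map_mm] at h3 h4
  rw [hg_one] at h5
  have hz0 : 0 ≤ hz (rl s v) 1 0 := by
    by_contra h
    push Not at h
    have h6 : 0 < Y ^ 2 := by positivity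
    nlinarith [h5.1]
  obtain ⟨h7, h8⟩ := hrea.1 (rl s v) h3
  exact place hcF hX hY h3 h4.2 hz0 h5.2 h7 h8

/-- Elements all of whose coordinates are in one of three intervals. -/
theorem count_d {C1 : ℝ}
    (hbox : ∀ α L : Sg k → ℝ, (∀ s, 0 ≤ L s) →
        {x : 𝓞 k | ∀ s : Sg k, α s ≤ s (x : k) ∧ s (x : k) ≤ α s + L s}.Finite ∧
        ({x : 𝓞 k | ∀ s : Sg k, α s ≤ s (x : k) ∧ s (x : k) ≤ α s + L s}.ncard : ℝ) ≤
          C1 * ∏ s, (L s + 1))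
    {l : ℝ} (hl : 0 ≤ l) (α : Sg k → Fin 3 → ℝ) :
    {x : 𝓞 k | ∀ s : Sg k, ∃ i : Fin 3, α s i ≤ s (x : k) ∧ s (x : k) ≤ α s i + l}.Finite ∧
    ({x : 𝓞 k | ∀ s : Sg k, ∃ i : Fin 3, α s i ≤ s (x : k) ∧ s (x : k) ≤ α s i + l}.ncard : ℝ) ≤
      3 ^ Fintype.card (Sg k) * (C1 * (l + 1) ^ Fintype.card (Sg k)) := by
  classical
  obtain ⟨T, hT⟩ : ∃ T : (Sg k → Fin 3) → Set (𝓞 k), T = fun e =>
      {x : 𝓞 k | ∀ s : Sg k, α s (e s) ≤ s (x : k) ∧ s (x : k) ≤ α s (e s) + l} := ⟨_, rfl⟩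
  have hTe : ∀ e, (T e).Finite ∧ ((T e).ncard : ℝ) ≤ C1 * (l + 1) ^ Fintype.card (Sg k) := by
    intro e
    have := hbox (fun s => α s (e s)) (fun _ => l) (fun _ => hl)
    rw [Finset.prod_const, Finset.card_univ] at this
    rw [hT]
    exact this
  have hsub : {x : 𝓞 k | ∀ s : Sg k, ∃ i : Fin 3, α s i ≤ s (x : k) ∧ s (x : k) ≤ α s i + l} ⊆
      ⋃ e ∈ (Finset.univ : Finset (Sg k → Fin 3)), T e := by
    intro x hx
    choose e he using hx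
    simp only [Finset.mem_univ, Set.iUnion_true, Set.mem_iUnion]
    refine ⟨e, ?_⟩
    rw [hT]
    exact he
  have hfin : (⋃ e ∈ (Finset.univ : Finset (Sg k → Fin 3)), T e).Finite :=
    Set.Finite.biUnion (Finset.finite_toSet _) fun e _ => (hTe e).1
  refine ⟨hfin.subset hsub, ?_⟩
  calc (({x : 𝓞 k | ∀ s : Sg k, ∃ i : Fin 3,
        α s i ≤ s (x : k) ∧ s (x : k) ≤ α s i + l}.ncard : ℕ) : ℝ)
      ≤ ((⋃ e ∈ (Finset.univ : Finset (Sg k → Fin 3)), T e).ncard : ℝ) := by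
        exact_mod_cast Set.ncard_le_ncard hsub hfin
    _ ≤ ((∑ e ∈ (Finset.univ : Finset (Sg k → Fin 3)), (T e).ncard : ℕ) : ℝ) := by
        exact_mod_cast Finset.set_ncard_biUnion_le _ _
    _ = ∑ e : Sg k → Fin 3, ((T e).ncard : ℝ) := by push_cast; rfl
    _ ≤ ∑ _e : Sg k → Fin 3, C1 * (l + 1) ^ Fintype.card (Sg k) :=
        Finset.sum_le_sum fun e _ => (hTe e).2
    _ = 3 ^ Fintype.card (Sg k) * (C1 * (l + 1) ^ Fintype.card (Sg k)) := by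
        rw [Finset.sum_const, nsmul_eq_mul, Finset.card_univ, Fintype.card_fun, Fintype.card_fin]
        push_cast
        ring

/-- The count in one cell. -/
theorem cel_core (hrea : ReaStmt) {C1 C2 C3 : ℝ} (hC1 : 0 < C1) (hC2 : 0 < C2) (hC3 : 0 < C3)
    {R : ℝ}
    (hbox : ∀ α L : Sg k → ℝ, (∀ s, 0 ≤ L s) →
        {x : 𝓞 k | ∀ s : Sg k, α s ≤ s (x : k) ∧ s (x : k) ≤ α s + L s}.Finite ∧
        ({x : 𝓞 k | ∀ s : Sg k, α s ≤ s (x : k) ∧ s (x : k) ≤ α s + L s}.ncard : ℝ) ≤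
          C1 * ∏ s, (L s + 1))
    (hbcn : ∀ a : 𝓞 k, a ≠ 0 →
      {b : 𝓞 k | ∀ s : Sg k, |s (b : k)| ≤ R * |s (a : k)|}.Finite ∧
      ({b : 𝓞 k | ∀ s : Sg k, |s (b : k)| ≤ R * |s (a : k)|}.ncard : ℝ) ≤
        C2 * ∏ s : Sg k, |s (a : k)|)
    {cF X Y Y0 : ℝ} (hcF : 1 ≤ cF) (hX : 1 / 2 ≤ X) (hY : 0 < Y) (hY0 : Y ≤ Y0)
    (h3 : ∀ a b c : ℝ, a ≠ 0 → ∃ α : Fin 3 → ℝ, ∀ d : ℝ, 0 < mm ![a, b, c, d] →
      X ^ 4 ≤ 2 * cF * mm ![a, b, c, d] → mm ![a, b, c, d] ≤ 2 * cF * X ^ 4 →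
      Y ^ 2 ≤ 2 * cF * hz ![a, b, c, d] 1 0 → hz ![a, b, c, d] 1 0 ≤ 2 * cF * Y ^ 2 →
      ∃ i, α i ≤ d ∧ d ≤ α i + C3 * (X / Y ^ 3))
    (hA : 1 ≤ 32 * cF ^ 4 * (Y ^ 3 * X)) :
    (gcell (k := k) cF R (X ^ 4) (Y ^ 2)).Finite ∧
      ((gcell (k := k) cF R (X ^ 4) (Y ^ 2)).ncard : ℝ) ≤
        (C1 * (96 * cF ^ 4 * (Y ^ 3 * X)) ^ Fintype.card (Sg k)) *
        (C2 * (C1 * ((16 * cF ^ 2 + 64 * cF ^ 4 * Y0) * (Y ^ 2 * X ^ 2)) ^ Fintype.card (Sg k)) *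
        (3 ^ Fintype.card (Sg k) *
          (C1 * ((C3 + 2 * Y0 ^ 3) * (X / Y ^ 3)) ^ Fintype.card (Sg k)))) := by
  classical
  have hc0 : 0 < cF := lt_of_lt_of_le one_pos hcF
  have hX0 : 0 < X := lt_of_lt_of_le (by norm_num) hX
  have hY00 : 0 < Y0 := lt_of_lt_of_le hY hY0
  obtain ⟨n, hn⟩ : ∃ n : ℕ, n = Fintype.card (Sg k) := ⟨_, rfl⟩
  rw [← hn]
  obtain ⟨A, hAdef⟩ : ∃ A, A = 32 * cF ^ 4 * (Y ^ 3 * X) := ⟨_, rfl⟩
  rw [← hAdef] at hA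
  have hA0 : 0 < A := lt_of_lt_of_le one_pos hA
  obtain ⟨Pp, hPp⟩ : ∃ Pp, Pp = 8 * cF ^ 2 * (Y ^ 2 * X ^ 2) := ⟨_, rfl⟩
  have hPp0 : 0 < Pp := by rw [hPp]; positivity
  obtain ⟨K, hK⟩ : ∃ K, K = (16 * cF ^ 2 + 64 * cF ^ 4 * Y0) * (Y ^ 2 * X ^ 2) := ⟨_, rfl⟩
  have hK0 : 0 < K := by rw [hK]; positivity
  have hKA : 2 * Pp + A ≤ K := by
    have h1 : Y ≤ Y0 * (2 * X) := by nlinarith
    have h2 : Y ^ 3 * X ≤ 2 * Y0 * (Y ^ 2 * X ^ 2) := by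
      have h3 : 0 ≤ Y ^ 2 * X := by positivity
      calc Y ^ 3 * X = (Y ^ 2 * X) * Y := by ring
        _ ≤ (Y ^ 2 * X) * (Y0 * (2 * X)) := by gcongr
        _ = 2 * Y0 * (Y ^ 2 * X ^ 2) := by ring
    rw [hPp, hAdef, hK]
    have h4 : 32 * cF ^ 4 * (Y ^ 3 * X) ≤ 32 * cF ^ 4 * (2 * Y0 * (Y ^ 2 * X ^ 2)) := by gcongr
    nlinarith
  obtain ⟨l, hl⟩ : ∃ l, l = C3 * (X / Y ^ 3) := ⟨_, rfl⟩
  have hl0 : 0 < l := by rw [hl]; positivity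
  have hl1 : l + 1 ≤ (C3 + 2 * Y0 ^ 3) * (X / Y ^ 3) := by
    have h1 : 1 ≤ 2 * Y0 ^ 3 * (X / Y ^ 3) := by
      rw [mul_div_assoc', le_div_iff₀ (by positivity), one_mul]
      have h2 : Y ^ 3 ≤ Y0 ^ 3 := by gcongr
      have h3 : 0 ≤ Y0 ^ 3 := by positivity
      nlinarith
    rw [hl, add_mul]
    linarith
  rw [← hl] at h3
  obtain ⟨Nd, hNd⟩ : ∃ Nd, Nd = 3 ^ n * (C1 * ((C3 + 2 * Y0 ^ 3) * (X / Y ^ 3)) ^ n) := ⟨_, rfl⟩
  have hNd0 : 0 < Nd := by rw [hNd]; positivity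
  rw [← hNd]
  obtain ⟨S, hS⟩ : ∃ S : Set (Q4 (𝓞 k)), S = gcell (k := k) cF R (X ^ 4) (Y ^ 2) := ⟨_, rfl⟩
  have hb : ∀ v ∈ S, ∀ s : Sg k, _ := fun v hv s =>
    cell_bounds hrea hcF hX0 hY (hS ▸ hv : v ∈ gcell (k := k) cF R (X ^ 4) (Y ^ 2)) s
  rw [← hS]
  -- the element `a`
  refine fib S (fun v => v 0)
    {x : 𝓞 k | ∀ s : Sg k, -A ≤ s (x : k) ∧ s (x : k) ≤ -A + 2 * A}
    (hbox (fun _ => -A) (fun _ => 2 * A) (fun _ => by positivity)).1 ?_ (by positivity) ?_ ?_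
  · refine (hbox (fun _ => -A) (fun _ => 2 * A) (fun _ => by positivity)).2.trans ?_
    rw [Finset.prod_const, Finset.card_univ, ← hn]
    have h1 : 96 * cF ^ 4 * (Y ^ 3 * X) = 3 * A := by rw [hAdef]; ring
    rw [h1]
    gcongr
    linarith
  · intro v hv s
    have h1 := (hb v hv s).1
    rw [← hAdef] at h1
    have h2 := abs_le.1 h1
    constructor
    · exact h2.1
    · linarith [h2.2]
  intro a ha
  by_cases ha0 : a = 0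
  · have he : {v | v ∈ S ∧ v 0 = a} = ∅ := by
      rw [Set.eq_empty_iff_forall_notMem]
      rintro v ⟨hv, h0⟩
      rw [hS] at hv
      exact hv.1 (h0.trans ha0)
    rw [he]
    exact ⟨Set.finite_empty, by rw [Set.ncard_empty]; push_cast; positivity⟩
  have hsa : ∀ s : Sg k, 0 < |s (a : k)| := by
    intro s
    rw [abs_pos]
    intro h
    apply ha0
    have h1 : (a : k) = 0 := (map_eq_zero s).1 h
    exact RingOfIntegers.coe_eq_zero_iff.1 h1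
  have hsA : ∀ s : Sg k, |s (a : k)| ≤ A := by
    intro s
    have h1 := ha s
    exact abs_le.2 ⟨h1.1, by linarith [h1.2]⟩
  have hprod : 0 < ∏ s : Sg k, |s (a : k)| := Finset.prod_pos fun s _ => hsa s
  -- the element `b`
  have hN : C2 * (C1 * K ^ n) * Nd =
      (C2 * ∏ s : Sg k, |s (a : k)|) * ((C1 * (K ^ n / ∏ s : Sg k, |s (a : k)|)) * Nd) := by
    field_simp
  rw [← hK, hN]
  refine fib {v | v ∈ S ∧ v 0 = a} (fun v => v 1)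
    {b : 𝓞 k | ∀ s : Sg k, |s (b : k)| ≤ R * |s (a : k)|}
    (hbcn a ha0).1 (hbcn a ha0).2 (by positivity) ?_ ?_
  · rintro v ⟨hv, h0⟩ s
    rw [hS] at hv
    have := hv.2.1 s
    rwa [h0] at this
  intro b hb1
  -- the element `c`
  have hL : ∀ s : Sg k, 0 ≤ 2 * Pp / |s (a : k)| := fun s =>
    div_nonneg (by positivity) (hsa s).le
  refine fib {v | (v ∈ S ∧ v 0 = a) ∧ v 1 = b} (fun v => v 2)
    {x : 𝓞 k | ∀ s : Sg k,
      (fun s : Sg k => s (b : k) ^ 2 / (3 * s (a : k)) - Pp / |s (a : k)|) s ≤ s (x : k) ∧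
      s (x : k) ≤ (fun s : Sg k => s (b : k) ^ 2 / (3 * s (a : k)) - Pp / |s (a : k)|) s +
          (fun s : Sg k => 2 * Pp / |s (a : k)|) s}
    (hbox _ _ hL).1 ?_ hNd0.le ?_ ?_
  · refine (hbox _ _ hL).2.trans ?_
    apply mul_le_mul_of_nonneg_left _ hC1.le
    have h1 : K ^ n / ∏ s : Sg k, |s (a : k)| = ∏ s : Sg k, K / |s (a : k)| := by
      rw [Finset.prod_div_distrib, Finset.prod_const, Finset.card_univ, ← hn]
    rw [h1]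
    refine Finset.prod_le_prod (fun s _ => by have := hL s; linarith) (fun s _ => ?_)
    have h2 := hsa s
    rw [div_add_one h2.ne']
    gcongr
    linarith [hsA s]
  · rintro v ⟨⟨hv, h0⟩, h1⟩ s
    have h2 := (hb v hv s).2
    rw [h0, h1, ← hPp] at h2
    have ha1 : s (a : k) ≠ 0 := abs_pos.1 (hsa s)
    have hc : s (v 2 : k) = s (b : k) ^ 2 / (3 * s (a : k)) -
        (s (b : k) ^ 2 - 3 * s (a : k) * s (v 2 : k)) / (3 * s (a : k)) := by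
      field_simp
      ring
    have habs : |(s (b : k) ^ 2 - 3 * s (a : k) * s (v 2 : k)) / (3 * s (a : k))| ≤
        Pp / |s (a : k)| := by
      rw [abs_div, abs_mul, abs_of_pos (by norm_num : (0 : ℝ) < 3)]
      have h5 := hsa s
      calc |s (b : k) ^ 2 - 3 * s (a : k) * s (v 2 : k)| / (3 * |s (a : k)|)
          ≤ Pp / (3 * |s (a : k)|) := by gcongr
        _ ≤ Pp / |s (a : k)| := by
            apply div_le_div_of_nonneg_left hPp0.le h5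
            linarith
    have h3 := abs_le.1 habs
    have h4 : 2 * Pp / |s (a : k)| = Pp / |s (a : k)| + Pp / |s (a : k)| := by ring
    simp only
    rw [h4]
    constructor
    · rw [hc]; linarith [h3.2]
    · rw [hc]; linarith [h3.1]
  intro c hc1
  have hα : ∀ s : Sg k, ∃ α : Fin 3 → ℝ, ∀ d : ℝ,
      0 < mm ![s (a : k), s (b : k), s (c : k), d] →
      X ^ 4 ≤ 2 * cF * mm ![s (a : k), s (b : k), s (c : k), d] →
      mm ![s (a : k), s (b : k), s (c : k), d] ≤ 2 * cF * X ^ 4 →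
      Y ^ 2 ≤ 2 * cF * hz ![s (a : k), s (b : k), s (c : k), d] 1 0 →
      hz ![s (a : k), s (b : k), s (c : k), d] 1 0 ≤ 2 * cF * Y ^ 2 →
      ∃ i, α i ≤ d ∧ d ≤ α i + l := fun s => h3 _ _ _ (abs_pos.1 (hsa s))
  choose α hα using hα
  have hcd := count_d (k := k) hbox hl0.le α
  rw [← hn] at hcd
  have hN1 : Nd = Nd * 1 := (mul_one _).symm
  rw [hN1]
  refine fib {v | v ∈ {v | (v ∈ S ∧ v 0 = a) ∧ v 1 = b} ∧ v 2 = c} (fun v => v 3)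
    {x : 𝓞 k | ∀ s : Sg k, ∃ i : Fin 3, α s i ≤ s (x : k) ∧ s (x : k) ≤ α s i + l} hcd.1 ?_
    zero_le_one ?_ ?_
  · refine hcd.2.trans ?_
    rw [hNd]
    gcongr
  · rintro v ⟨⟨⟨hv, h0⟩, h1⟩, h2⟩ s
    rw [hS] at hv
    obtain ⟨-, -, g3, g4, g5⟩ := hv
    have g3 := g3 s
    have g4 := g4 s
    have g5 := g5 s
    have hrl : rl s v = ![s (a : k), s (b : k), s (c : k), s (v 3 : k)] := by
      funext i
      fin_cases i
      · simp [rl, h0]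
      · simp [rl, h1]
      · simp [rl, h2]
      · simp [rl]
    rw [map_mm, hrl] at g3 g4
    rw [hg_one, hrl] at g5
    have hz0 : 0 < hz ![s (a : k), s (b : k), s (c : k), s (v 3 : k)] 1 0 := by
      by_contra h
      push Not at h
      have h6 : 0 < Y ^ 2 := by positivity
      nlinarith [g5.1]
    refine hα s (s (v 3 : k)) g3 ?_ g4.2 ?_ g5.2
    · have := mul_pos hc0 g3
      linarith [g4.1]
    · have := mul_pos hc0 hz0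
      linarith [g5.1]
  · intro d hd
    have hsub : {v | v ∈ {v | v ∈ {v | (v ∈ S ∧ v 0 = a) ∧ v 1 = b} ∧ v 2 = c} ∧ v 3 = d} ⊆
        {![a, b, c, d]} := by
      rintro v ⟨⟨⟨⟨hv, h0⟩, h1⟩, h2⟩, h3⟩
      rw [Set.mem_singleton_iff]
      funext i
      fin_cases i
      · exact h0
      · exact h1
      · exact h2
      · exact h3
    refine ⟨(Set.finite_singleton _).subset hsub, ?_⟩
    have h1 := Set.ncard_le_ncard hsub (Set.finite_singleton _)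
    rw [Set.ncard_singleton] at h1
    exact_mod_cast h1

end

/-- CEL -/
theorem cel (hbox : BoxStmt) (hbcn : BcnStmt) (hrea : ReaStmt) (hnor : NorStmt) : CelStmt := by
  intro k _ _ htr cF R ξ₀ hcF hR hξ₀
  obtain ⟨hcard, -, hint⟩ := hnor k htr
  obtain ⟨C1, hC1, hbox⟩ := hbox k htr
  obtain ⟨C2, hC2, hbcn⟩ := hbcn k htr R hR
  have hc0 : 0 < cF := lt_of_lt_of_le one_pos hcF
  obtain ⟨C3, hC3, h3⟩ := hrea.2 (2 * cF) (by linarith)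
  obtain ⟨n, hn⟩ : ∃ n : ℕ, n = finrank ℚ k := ⟨_, rfl⟩
  have hn0 : 0 < n := by rw [hn]; exact finrank_pos
  obtain ⟨Y0, hY0⟩ : ∃ Y0, Y0 = Real.sqrt ξ₀ := ⟨_, rfl⟩
  have hY00 : 0 < Y0 := by rw [hY0]; exact Real.sqrt_pos.2 hξ₀
  obtain ⟨C, hC⟩ : ∃ C, C = (C1 * (96 * cF ^ 4) ^ n) * (C2 * (C1 *
      (16 * cF ^ 2 + 64 * cF ^ 4 * Y0) ^ n) * (3 ^ n * (C1 * (C3 + 2 * Y0 ^ 3) ^ n))) :=
    ⟨_, rfl⟩
  have hC0 : 0 < C := by rw [hC]; positivity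
  refine ⟨C + 32 * cF ^ 4, by positivity, ?_⟩
  intro M ξ hM hξ hξξ
  obtain ⟨X, hX⟩ : ∃ X, X = M ^ (1 / 4 : ℝ) := ⟨_, rfl⟩
  obtain ⟨Y, hY⟩ : ∃ Y, Y = Real.sqrt ξ := ⟨_, rfl⟩
  have hM0 : 0 < M := lt_of_lt_of_le (by norm_num) hM
  have hX0 : 0 < X := by rw [hX]; positivity
  have hYp : 0 < Y := by rw [hY]; exact Real.sqrt_pos.2 hξ
  have hX4 : X ^ 4 = M := by
    rw [hX, ← Real.rpow_natCast, ← Real.rpow_mul hM0.le]
    norm_num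
  have hY2 : Y ^ 2 = ξ := by rw [hY]; exact Real.sq_sqrt hξ.le
  have hYY : Y ≤ Y0 := by rw [hY, hY0]; exact Real.sqrt_le_sqrt hξξ
  have hX2 : 1 / 2 ≤ X := by
    by_contra h
    push Not at h
    have h1 : X ^ 4 < (1 / 2) ^ 4 := by gcongr
    rw [hX4] at h1
    norm_num at h1
    linarith
  have hξ3 : ξ ^ (3 / 2 : ℝ) = Y ^ 3 := by rw [← hY2, rpow_three_half hYp.le]
  have h3' : ∀ a b c : ℝ, a ≠ 0 → ∃ α : Fin 3 → ℝ, ∀ d : ℝ, 0 < mm ![a, b, c, d] →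
      X ^ 4 ≤ 2 * cF * mm ![a, b, c, d] → mm ![a, b, c, d] ≤ 2 * cF * X ^ 4 →
      Y ^ 2 ≤ 2 * cF * hz ![a, b, c, d] 1 0 → hz ![a, b, c, d] 1 0 ≤ 2 * cF * Y ^ 2 →
      ∃ i, α i ≤ d ∧ d ≤ α i + C3 * (X / Y ^ 3) := by
    intro a b c ha
    have h := h3 a b c M ξ ha hM0 hξ
    rw [← hX, hξ3, ← hX4, ← hY2] at h
    exact h
  rw [← hX, hξ3, ← hX4, ← hY2, ← hn]
  rcases Set.eq_empty_or_nonempty (gcell (k := k) cF R (X ^ 4) (Y ^ 2)) with he | hne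
  · rw [he]
    refine ⟨Set.finite_empty, ?_, fun h => absurd h Set.not_nonempty_empty⟩
    rw [Set.ncard_empty]
    push_cast
    positivity
  have hA : 1 ≤ 32 * cF ^ 4 * (Y ^ 3 * X) := by
    obtain ⟨v, hv⟩ := hne
    have h1 := (hint (v 0) hv.1).1
    have h2 : ∏ s : Sg k, |s (v 0 : k)| ≤ ∏ _s : Sg k, (32 * cF ^ 4 * (Y ^ 3 * X)) :=
      Finset.prod_le_prod (fun s _ => abs_nonneg _)
        (fun s _ => (cell_bounds hrea hcF hX0 hYp hv s).1)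
    rw [Finset.prod_const, Finset.card_univ, hcard, ← hn] at h2
    by_contra h3
    push Not at h3
    have h4 : (32 * cF ^ 4 * (Y ^ 3 * X)) ^ n < 1 :=
      pow_lt_one₀ (by positivity) h3 hn0.ne'
    linarith
  have hcore := cel_core (k := k) hrea hC1 hC2 hC3 hbox hbcn hcF hX2 hYp hYY h3' hA
  rw [hcard, ← hn] at hcore
  refine ⟨hcore.1, ?_, fun _ => ?_⟩
  · refine hcore.2.trans ?_
    have h1 : (C1 * (96 * cF ^ 4 * (Y ^ 3 * X)) ^ n) *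
        (C2 * (C1 * ((16 * cF ^ 2 + 64 * cF ^ 4 * Y0) * (Y ^ 2 * X ^ 2)) ^ n) *
        (3 ^ n * (C1 * ((C3 + 2 * Y0 ^ 3) * (X / Y ^ 3)) ^ n))) =
        C * (Y ^ 2) ^ n * (X ^ 4) ^ n := by
      have h2 : (Y ^ 2) ^ n * (X ^ 4) ^ n = ((Y ^ 3 * X) * (Y ^ 2 * X ^ 2) * (X / Y ^ 3)) ^ n := by
        rw [← mul_pow]
        congr 1
        field_simp
      rw [mul_assoc C, h2, hC]
      simp only [mul_pow]
      ring
    rw [h1]
    have h3 : 0 ≤ (Y ^ 2) ^ n * (X ^ 4) ^ n := by positivity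
    have h4 : 0 < 32 * cF ^ 4 := by positivity
    nlinarith
  · have h5 : 0 ≤ C * (Y ^ 3 * X) := by positivity
    linarith

end Pool.Agent.LeoG.H27
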